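import Mathlib

set_option autoImplicit false

open MeasureTheory ProbabilityTheory Module

namespace Pool.Agent.Results.MP_21e226_pr.SubspacesIntersect

/-- Exponent vectors of the monomials of degree `d` in `t` variables. -/
abbrev Expo (t d : ℕ) : Type := {α : Fin t → ℕ // ∑ j, α j = d}

noncomputable instance (t d : ℕ) : Fintype (Expo t d) :=
  Fintype.ofEquiv (Sym (Fin t) d) (Sym.equivNatSumOfFintype (Fin t) d)

theorem card_expo (t d : ℕ) : Fintype.card (Expo t d) = (t + d - 1).choose d := by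
  rw [Fintype.card_congr (Sym.equivNatSumOfFintype (Fin t) d).symm, Sym.card_sym_eq_choose,
    Fintype.card_fin]

/-- The linear form `x ↦ ⟨v, x⟩`, as a polynomial in `x_1, ..., x_n`. -/
noncomputable def linForm {n : ℕ} (v : EuclideanSpace ℝ (Fin n)) : MvPolynomial (Fin n) ℝ :=
  ∑ k, MvPolynomial.C (v k) * MvPolynomial.X k

/-- The matrix `M`. Rows are indexed by the degree `d` monomials in `x_1, ..., x_n`, columns by
pairs (block `i`, degree `d` monomial in `t` variables); the column `(i, β)` is the coefficient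
vector of the polynomial `∏_j ℓ_{ij}^{β_j}`, where `ℓ_{ij}(x) = ⟨v i j, x⟩`. -/
noncomputable def blockMatrix {n s t : ℕ} (d : ℕ) (v : Fin s → Fin t → EuclideanSpace ℝ (Fin n)) :
    Matrix (Expo n d) (Fin s × Expo t d) ℝ :=
  Matrix.of fun α c =>
    MvPolynomial.coeff (Finsupp.equivFunOnFinite.symm α.1) (∏ j, linForm (v c.1 j) ^ c.2.1 j)

/-- `σ_k`, the `k`-th largest singular value of a real matrix (`k ≥ 1`). -/
noncomputable def sigma {R S : Type} [Fintype R] [Fintype S] [DecidableEq S]
    (M : Matrix R S ℝ) (k : ℕ) : ℝ :=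
  (Matrix.toEuclideanLin M).singularValues (k - 1)

/-- The subspace of `ℝ^n` spanned by the columns of an `n × t` matrix. -/
noncomputable def colSpan {n t : ℕ} (P : Matrix (Fin n) (Fin t) ℝ) :
    Submodule ℝ (EuclideanSpace ℝ (Fin n)) :=
  Submodule.span ℝ (Set.range fun j => WithLp.toLp 2 fun k => P k j)

/-- `v i 1, ..., v i t` is an orthonormal basis of the column span of `P i`, for every `i`. -/
def IsBasisFamily {n s t : ℕ} (P : Fin s → Matrix (Fin n) (Fin t) ℝ)
    (v : Fin s → Fin t → EuclideanSpace ℝ (Fin n)) : Prop :=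
  ∀ i, Orthonormal ℝ (v i) ∧ Submodule.span ℝ (Set.range (v i)) = colSpan (P i)

/-- The law of the noise `(G_1, ..., G_s)`: independent centred Gaussian entries of variance
`ρ^2 / n`. -/
noncomputable def noise (n s t : ℕ) (ρ : ℝ) : Measure (Fin s × Fin n × Fin t → ℝ) :=
  Measure.pi fun _ => gaussianReal 0 (Real.toNNReal (ρ ^ 2 / n))

/-- The perturbed matrices `P_i + G_i`. -/
def perturb {n s t : ℕ} (P : Fin s → Matrix (Fin n) (Fin t) ℝ) (G : Fin s × Fin n × Fin t → ℝ) :
    Fin s → Matrix (Fin n) (Fin t) ℝ :=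
  fun i => P i + Matrix.of fun k j => G (i, k, j)

section Algebra

theorem linForm_sum {n t : ℕ} (a : Fin t → ℝ) (v : Fin t → EuclideanSpace ℝ (Fin n)) :
    linForm (∑ j, a j • v j) = ∑ j, MvPolynomial.C (a j) * linForm (v j) := by
  unfold linForm
  simp only [Finset.mul_sum]
  rw [Finset.sum_comm]
  refine Finset.sum_congr rfl fun k _ => ?_
  have : (∑ j, a j • v j : EuclideanSpace ℝ (Fin n)) k = ∑ j, a j * v j k := by
    simp
  rw [this, map_sum, Finset.sum_mul]
  refine Finset.sum_congr rfl fun j _ => ?_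
  rw [map_mul, mul_assoc]

/-- The coefficients of the expansion of `(∑ a_j ℓ_j)^d`. -/
noncomputable def expCoeff {t : ℕ} (d : ℕ) (a : Fin t → ℝ) (β : Expo t d) : ℝ :=
  (Nat.multinomial Finset.univ β.1 : ℝ) * ∏ j, a j ^ β.1 j

theorem pow_expand {n t : ℕ} (d : ℕ) (a : Fin t → ℝ) (v : Fin t → EuclideanSpace ℝ (Fin n)) :
    linForm (∑ j, a j • v j) ^ d =
      ∑ β : Expo t d, MvPolynomial.C (expCoeff d a β) * ∏ j, linForm (v j) ^ β.1 j := by
  classical
  rw [linForm_sum, Finset.sum_pow_eq_sum_piAntidiag]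
  symm
  refine Finset.sum_bij (fun (β : Expo t d) _ => β.1) ?_ ?_ ?_ ?_
  · intro β _
    rw [Finset.mem_piAntidiag]
    exact ⟨β.2, fun _ _ => Finset.mem_univ _⟩
  · intro β _ β' _ h
    exact Subtype.ext h
  · intro α hα
    rw [Finset.mem_piAntidiag] at hα
    exact ⟨⟨α, hα.1⟩, Finset.mem_univ _, rfl⟩
  · intro β _
    unfold expCoeff
    rw [map_mul, map_prod]
    simp only [mul_pow, Finset.prod_mul_distrib, map_pow, map_natCast]
    ring

theorem expCoeff_ne_zero {t : ℕ} (d : ℕ) (a : Fin t → ℝ) (j : Fin t) (hj : a j ≠ 0) :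
    ∃ β : Expo t d, expCoeff d a β ≠ 0 := by
  refine ⟨⟨Pi.single j d, by simp⟩, ?_⟩
  unfold expCoeff
  refine mul_ne_zero ?_ ?_
  · have := Nat.multinomial_pos (Finset.univ : Finset (Fin t)) (Pi.single j d : Fin t → ℕ)
    exact_mod_cast this.ne'
  · rw [Finset.prod_eq_single j]
    · simpa using pow_ne_zero d hj
    · intro k _ hk
      simp [Pi.single_eq_of_ne hk]
    · intro h; exact absurd (Finset.mem_univ j) h

theorem exists_common {n t : ℕ} (hnt : n < 2 * t) (v : Fin 2 → Fin t → EuclideanSpace ℝ (Fin n))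
    (hv : ∀ i, Orthonormal ℝ (v i)) :
    ∃ a b : Fin t → ℝ, (∃ j, a j ≠ 0) ∧ ∑ j, a j • v 0 j = ∑ j, b j • v 1 j := by
  have hdim : ¬ LinearIndependent ℝ (fun p : Fin t ⊕ Fin t => Sum.elim (v 0) (v 1) p) := by
    intro h
    have := h.fintype_card_le_finrank
    simp at this
    omega
  rw [Fintype.not_linearIndependent_iff] at hdim
  obtain ⟨g, hg, p, hp⟩ := hdim
  rw [Fintype.sum_sum_type] at hg
  simp only [Sum.elim_inl, Sum.elim_inr] at hg
  refine ⟨fun j => g (Sum.inl j), fun j => - g (Sum.inr j), ?_, ?_⟩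
  · by_contra hcon
    push Not at hcon
    have h0 : ∑ j, g (Sum.inr j) • v 1 j = 0 := by
      have : ∑ j, g (Sum.inl j) • v 0 j = 0 := by
        refine Finset.sum_eq_zero fun j _ => ?_
        rw [hcon j, zero_smul]
      rw [this, zero_add] at hg
      exact hg
    have hli := (hv 1).linearIndependent
    rw [Fintype.linearIndependent_iff] at hli
    have := hli _ h0
    rcases p with p | p
    · exact hp (hcon p)
    · exact hp (this p)
  · simp only [neg_smul, Finset.sum_neg_distrib]
    exact eq_neg_of_add_eq_zero_left hg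

theorem sigma_eq_zero {n t d : ℕ} (hnt : n < 2 * t)
    (v : Fin 2 → Fin t → EuclideanSpace ℝ (Fin n)) (hv : ∀ i, Orthonormal ℝ (v i)) :
    sigma (blockMatrix d v) (2 * (t + d - 1).choose d) = 0 := by
  classical
  obtain ⟨a, b, ⟨j, hj⟩, hab⟩ := exists_common hnt v hv
  obtain ⟨β₀, hβ₀⟩ := expCoeff_ne_zero d a j hj
  set T := Matrix.toEuclideanLin (blockMatrix d v) with hT
  have hninj : ¬ Function.Injective T := by
    intro hinj
    let c : EuclideanSpace ℝ (Fin 2 × Expo t d) :=
      WithLp.toLp 2 fun q => if q.1 = 0 then expCoeff d a q.2 else - expCoeff d b q.2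
    have hTc : T c = 0 := by
      ext α
      have h1 : (T c) α = ∑ q, blockMatrix d v α q * c q := by
        rw [hT]
        simp [Matrix.toLpLin_apply, Matrix.mulVec, dotProduct]
      rw [h1, Fintype.sum_prod_type]
      simp only [Fin.sum_univ_two]
      have e1 : ∀ (i : Fin 2) (e : Fin t → ℝ),
          ∑ β : Expo t d, blockMatrix d v α (i, β) * expCoeff d e β =
          MvPolynomial.coeff (Finsupp.equivFunOnFinite.symm α.1)
            (linForm (∑ j, e j • v i j) ^ d) := by
        intro i e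
        rw [pow_expand, MvPolynomial.coeff_sum]
        refine Finset.sum_congr rfl fun β _ => ?_
        rw [MvPolynomial.coeff_C_mul, mul_comm]
        rfl
      have h2 : ∑ β : Expo t d, blockMatrix d v α (0, β) * c (0, β) =
          ∑ β : Expo t d, blockMatrix d v α (0, β) * expCoeff d a β := by
        refine Finset.sum_congr rfl fun β _ => ?_
        simp [c]
      have h3 : ∑ β : Expo t d, blockMatrix d v α (1, β) * c (1, β) =
          - ∑ β : Expo t d, blockMatrix d v α (1, β) * expCoeff d b β := by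
        rw [← Finset.sum_neg_distrib]
        refine Finset.sum_congr rfl fun β _ => ?_
        simp [c]
      rw [h2, h3, e1, e1, hab]
      simp
    have hc0 : c = 0 := hinj (by rw [hTc, map_zero])
    apply hβ₀
    have : c (0, β₀) = 0 := by rw [hc0]; rfl
    simpa [c] using this
  rw [LinearMap.injective_iff_forall_lt_finrank_singularValues_pos] at hninj
  push Not at hninj
  obtain ⟨i, hi, hi0⟩ := hninj
  have hfr : finrank ℝ (EuclideanSpace ℝ (Fin 2 × Expo t d)) = 2 * (t + d - 1).choose d := by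
    rw [finrank_euclideanSpace, Fintype.card_prod, Fintype.card_fin, card_expo]
  rw [hfr] at hi
  unfold sigma
  refine le_antisymm ?_ (LinearMap.singularValues_nonneg _ _)
  exact (LinearMap.singularValues_antitone _ (by omega : i ≤ 2 * (t + d - 1).choose d - 1)).trans hi0

theorem asc_bound (m d : ℕ) (hm : 6 ≤ m) (hd : 2 ≤ d) :
    8 * (m + 1).ascFactorial d ≤ 3 * (2 * m).ascFactorial d := by
  induction d, hd using Nat.le_induction with
  | base =>
    simp only [Nat.ascFactorial_succ, Nat.ascFactorial_zero]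
    nlinarith
  | succ d hd ih =>
    rw [Nat.ascFactorial_succ, Nat.ascFactorial_succ]
    calc 8 * ((m + 1 + d) * (m + 1).ascFactorial d)
        = (m + 1 + d) * (8 * (m + 1).ascFactorial d) := by ring
      _ ≤ (2 * m + d) * (3 * (2 * m).ascFactorial d) := Nat.mul_le_mul (by omega) ih
      _ = 3 * ((2 * m + d) * (2 * m).ascFactorial d) := by ring

theorem choose_bound (m d : ℕ) (hm : 6 ≤ m) (hd : 2 ≤ d) :
    8 * (m + 1 + d - 1).choose d ≤ 3 * (2 * m + d - 1).choose d := by
  have h := asc_bound m d hm hd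
  rw [Nat.ascFactorial_eq_factorial_mul_choose', Nat.ascFactorial_eq_factorial_mul_choose'] at h
  have hf := Nat.factorial_pos d
  nlinarith

end Algebra

/-- For every degree `d ≥ 2` the conjectured lower bound fails, with `δ = 1/4`: for every exponent
`C` there are arbitrarily large `n`, with `s = 2` and some `t ≤ n`, satisfying the dimension
condition `s * binom (t+d-1) d ≤ (1 - δ) * binom (n+d-1) d` and such that for all choices of the
two subspaces (there are such choices) and all `ρ ∈ (0,1]`: for every value of the noise and all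
orthonormal bases of the perturbed subspaces `σ_N(M) = 0`, and the probability that
`σ_N(M) ≥ (ρ/n)^C` for some choice of the orthonormal bases is zero. -/
theorem result : ∀ d : ℕ, 2 ≤ d → ∀ C : ℝ, ∀ n₀ : ℕ, ∃ n t : ℕ, n₀ ≤ n ∧ 1 ≤ t ∧ t ≤ n ∧
    (((2 * (t + d - 1).choose d : ℕ) : ℝ) ≤ (1 - 1 / 4) * ((n + d - 1).choose d : ℝ)) ∧
    (∃ P : Fin 2 → Matrix (Fin n) (Fin t) ℝ, ∀ i, (P i).transpose * P i = 1) ∧
    ∀ P : Fin 2 → Matrix (Fin n) (Fin t) ℝ, (∀ i, (P i).transpose * P i = 1) →
      ∀ ρ : ℝ, 0 < ρ → ρ ≤ 1 →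
        (∀ (G : Fin 2 × Fin n × Fin t → ℝ) (v : Fin 2 → Fin t → EuclideanSpace ℝ (Fin n)),
          IsBasisFamily (perturb P G) v →
            sigma (blockMatrix d v) (2 * (t + d - 1).choose d) = 0) ∧
        noise n 2 t ρ {G | ∃ v : Fin 2 → Fin t → EuclideanSpace ℝ (Fin n),
          IsBasisFamily (perturb P G) v ∧
          (ρ / n) ^ C ≤ sigma (blockMatrix d v) (2 * (t + d - 1).choose d)} = 0 := by
  intro d hd C n₀
  refine ⟨2 * (n₀ + 6), n₀ + 6 + 1, by omega, by omega, by omega, ?_, ?_, ?_⟩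
  · have h := choose_bound (n₀ + 6) d (by omega) hd
    have h' : ((8 * (n₀ + 6 + 1 + d - 1).choose d : ℕ) : ℝ) ≤
        ((3 * (2 * (n₀ + 6) + d - 1).choose d : ℕ) : ℝ) := by exact_mod_cast h
    push_cast at h' ⊢
    linarith
  · refine ⟨fun _ => Matrix.of fun k j => if (k : ℕ) = (j : ℕ) then 1 else 0, fun _ => ?_⟩
    ext j j'
    rw [Matrix.mul_apply]
    simp only [Matrix.transpose_apply, Matrix.of_apply]
    rw [Finset.sum_eq_single (Fin.castLE (by omega) j)]
    · simp [Matrix.one_apply, Fin.ext_iff]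
    · intro k _ hk
      have : (k : ℕ) ≠ (j : ℕ) := fun h => hk (Fin.ext h)
      simp [this]
    · intro h; exact absurd (Finset.mem_univ _) h
  · intro P _ ρ hρ _
    refine ⟨fun G v hv => sigma_eq_zero (by omega) v (fun i => (hv i).1), ?_⟩
    have : {G : Fin 2 × Fin (2 * (n₀ + 6)) × Fin (n₀ + 6 + 1) → ℝ |
        ∃ v : Fin 2 → Fin (n₀ + 6 + 1) → EuclideanSpace ℝ (Fin (2 * (n₀ + 6))),
          IsBasisFamily (perturb P G) v ∧
          (ρ / (2 * (n₀ + 6) : ℕ)) ^ C ≤
            sigma (blockMatrix d v) (2 * (n₀ + 6 + 1 + d - 1).choose d)} = ∅ := by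
      ext G
      simp only [Set.mem_ofPred_eq, Set.mem_empty_iff_false, iff_false, not_exists, not_and, not_le]
      intro v hv
      rw [sigma_eq_zero (by omega) v (fun i => (hv i).1)]
      apply Real.rpow_pos_of_pos
      positivity
    rw [this, measure_empty]

end Pool.Agent.Results.MP_21e226_pr.SubspacesIntersect
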